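import Pool.Agent.V11167.KEqC
import Pool.Agent.V11167.KEqDefs

/-! MP_fb0157_co, Q2 (disproof). -/

namespace Pool.Agent.Results.MP_fb0157_co.ParityQ2

open Pool.Agent.V11167.KEq

theorem result : ∃ k n : ℕ, 2 ≤ k ∧ 2 * k + 1 < n ∧ Odd n ∧
    ∃ P : ZMod n → E (2 * k - 1), Function.Injective P ∧ KEquilateral (k + 1) P ∧ Spans P := by
  refine ⟨4, 25, by norm_num, by norm_num, ⟨12, rfl⟩, ?_⟩
  refine engine (n := 25) (kk := 5) (s := 3) ![1, 3, 9] 2 ?_ ?_ ?_ ?_ ?_ ?_ ?_ 0 rfl 7 (by norm_num)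
  · decide
  · decide
  · decide
  · decide
  · decide
  · decide
  · decide +kernel

end Pool.Agent.Results.MP_fb0157_co.ParityQ2
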