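import Pool.Agent.V11167.KEqE
import Pool.Agent.V11167.KEqDefs

/-! MP_fb0157_co, Q1 (affirmative answer). -/

namespace Pool.Agent.Results.MP_fb0157_co.SpanQ1

open Pool.Agent.V11167.KEq

theorem result : ∀ k n : ℕ, 2 ≤ k → 2 * k + 1 < n →
    ∃ P : ZMod n → E (2 * k - 1), KEquilateral k P ∧ Spans P ∧
      (3 ≤ k ∨ Even n → Function.Injective P) := by
  intro k n hk hn
  rcases Nat.even_or_odd n with ⟨N, hN⟩ | ⟨N, hN⟩
  · have hN' : n = 2 * N := by omega
    subst hN'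
    obtain ⟨P, h1, h2, h3⟩ := Pool.Agent.V11167.KEq.even_case k N hk (by omega)
    exact ⟨P, h2, h3, fun _ => h1⟩
  · rcases Nat.lt_or_ge k 3 with h | h
    · have hk2 : k = 2 := by omega
      subst hk2
      obtain ⟨P, h1, h2⟩ := Pool.Agent.V11167.KEq.two_case n (by omega)
      refine ⟨P, h1, h2, ?_⟩
      rintro (h | h)
      · omega
      · exact absurd h (Nat.not_even_iff_odd.2 ⟨N, hN⟩)
    · subst hN
      obtain ⟨P, h1, h2, h3⟩ := Pool.Agent.V11167.KEq.odd_case k N h (by omega)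
      exact ⟨P, h2, h3, fun _ => h1⟩

end Pool.Agent.Results.MP_fb0157_co.SpanQ1
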